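import Pool.Agent.W2helper22.CU.Stmts3

/-!
# CU3 piece CHAIN: the non-monotone gates change in few blocks
-/

set_option autoImplicit false

namespace Pool.Agent.W2helper17.CU

open Finset Pool.Agent.H540R2 Pool.Agent.W2helper86.KQ Pool.Agent.H520R2 Pool.Agent.H520R2.NM
  Pool.Agent.W2helper22.CU

theorem count_steps (r : ℕ → ℕ) (p : ℕ → Prop) [DecidablePred p] (P : ℕ) (h1 : ∀ i < P, r i ≤ r (i + 1))
    (h2 : ∀ i < P, p i → r i < r (i + 1)) :
    ((range P).filter p).card + r 0 ≤ r P := by
  induction P with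
  | zero => simp
  | succ P ih =>
    have := ih (fun i hi => h1 i (by omega)) (fun i hi => h2 i (by omega))
    have h3 := h1 P (by omega)
    rw [Finset.range_add_one, Finset.filter_insert]
    split_ifs with h
    · have h4 := h2 P (by omega) h
      rw [Finset.card_insert_of_notMem (by simp)]
      omega
    · omega

/-- colouring `χ` on block `j`, and `χ₀` outside -/
def mx {n P κ : ℕ} (π : Fin n → Fin P) (j : Fin P) (χ₀ χ : Fin n → Fin κ) : Fin n → Fin κ :=
  fun v => if π v = j then χ v else χ₀ v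

theorem mixR_mx {n P κ : ℕ} (H : SimpleGraph (Fin n)) (π : Fin n → Fin P) (j : Fin P)
    (χ₀ χ : Fin n → Fin κ) : mixR H π j (mx π j χ₀ χ) (mx π j χ₀ χ) = mixR H π j χ₀ χ := by
  funext u v
  unfold mixR
  apply propext
  refine and_congr_right fun _ => and_congr_right fun huv => ?_
  by_cases hj : π u = j
  · have hv : π v = j := huv ▸ hj
    simp [mx, hj, hv]
  · have hv : ¬ π v = j := huv ▸ hj
    simp [mx, hj, hv]

theorem baseR_mx {n P κ : ℕ} (H : SimpleGraph (Fin n)) (π : Fin n → Fin P) (j : Fin P)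
    (χ₀ χ : Fin n → Fin κ) : baseR H π j (mx π j χ₀ χ) = baseR H π j χ₀ := by
  funext u v
  unfold baseR
  apply propext
  refine and_congr_right fun _ => and_congr_right fun huv => and_congr_right fun hlt => ?_
  have hu : ¬ π u = j := ne_of_lt hlt
  have hv : ¬ π v = j := huv ▸ hu
  simp [mx, hu, hv]

theorem mx_mx {n P κ : ℕ} (π : Fin n → Fin P) (j : Fin P) (χ₀ χ : Fin n → Fin κ) :
    mx π j (mx π j χ₀ χ) (mx π j χ χ₀) = χ₀ := by
  funext v
  unfold mx
  by_cases h : π v = j <;> simp [h]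

/-- the graph in the first `i` blocks -/
def stg {n P κ : ℕ} (H : SimpleGraph (Fin n)) (π : Fin n → Fin P) (χ : Fin n → Fin κ) (i : ℕ)
    (u v : Fin n) : Prop :=
  H.Adj u v ∧ π u = π v ∧ (π u : ℕ) < i ∧ χ u ≠ χ v

theorem stg_base {n P κ : ℕ} (H : SimpleGraph (Fin n)) (π : Fin n → Fin P) (χ : Fin n → Fin κ)
    (j : Fin P) : baseR H π j χ = stg H π χ j := by
  funext u v
  rfl

theorem stg_mix {n P κ : ℕ} (H : SimpleGraph (Fin n)) (π : Fin n → Fin P) (χ : Fin n → Fin κ)
    (j : Fin P) : mixR H π j χ χ = stg H π χ (j + 1) := by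
  funext u v
  unfold mixR stg
  apply propext
  refine and_congr_right fun _ => and_congr_right fun huv => ?_
  rw [← or_and_right]
  refine and_congr_left fun _ => ?_
  rw [Fin.lt_def, Fin.ext_iff]
  omega

theorem bits_mono {n : ℕ} {R S : Fin n → Fin n → Prop} (h : ∀ u v, R u v → S u v) :
    bits R ≤ bits S := by
  intro e
  unfold bits
  by_cases h1 : R ((pairNo n).symm e).1.1 ((pairNo n).symm e).1.2
  · have h2 := h _ _ h1
    simp [h1, h2]
  · simp [h1]

open Classical in
/-- the number of blocks in which the gates change along one chain -/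
theorem card_change {n κ P N : ℕ} (H : SimpleGraph (Fin n)) (C : NM.Circuit (Fin (n.choose 2)) N)
    (π : Fin n → Fin P) (χ : Fin n → Fin κ) :
    (univ.filter (fun j : Fin P => C.probes (bits (mixR H π j χ χ)) ≠
      C.probes (bits (baseR H π j χ)))).card ≤ (C.fanins.map (· + 1)).prod := by
  set r : ℕ → ℕ := fun i => C.rank (bits (stg H π χ i)) with hr
  set p : ℕ → Prop := fun i => C.probes (bits (stg H π χ (i + 1))) ≠
    C.probes (bits (stg H π χ i)) with hp
  have hmono : ∀ i, bits (stg H π χ i) ≤ bits (stg H π χ (i + 1)) := by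
    intro i
    apply bits_mono
    rintro u v ⟨h1, h2, h3, h4⟩
    exact ⟨h1, h2, by omega, h4⟩
  have h1 : ∀ i < P, r i ≤ r (i + 1) := by
    intro i _
    rcases C.rank_mono (hmono i) with h | ⟨h, _, _⟩
    · exact h.le
    · exact h.le
  have h2 : ∀ i < P, p i → r i < r (i + 1) := by
    intro i _ hpi
    rcases C.rank_mono (hmono i) with h | ⟨_, h, _⟩
    · exact h
    · exact absurd h.symm hpi
  have h3 := count_steps r p P h1 h2
  have h4 : r P < (C.fanins.map (· + 1)).prod := C.rank_lt _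
  have h5 : (univ.filter (fun j : Fin P => C.probes (bits (mixR H π j χ χ)) ≠
      C.probes (bits (baseR H π j χ)))).card ≤ ((range P).filter p).card := by
    apply Finset.card_le_card_of_injOn (fun j : Fin P => (j : ℕ))
    · intro j hj
      have hj' := (Finset.mem_filter.mp hj).2
      rw [stg_mix, stg_base] at hj'
      exact Finset.mem_coe.mpr (Finset.mem_filter.mpr ⟨Finset.mem_range.mpr j.2, hj'⟩)
    · intro a _ b _ hab
      exact Fin.ext hab
  omega

theorem p_chain : P_CHAIN := by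
  classical
  intro n κ P N H C π δ hκ hδ
  -- the change in block `j` for the pair of colourings
  set ch : Fin P → (Fin n → Fin κ) → (Fin n → Fin κ) → Prop := fun j χ₀ χ =>
    C.probes (bits (mixR H π j χ₀ χ)) ≠ C.probes (bits (baseR H π j χ₀)) with hch
  have hmx : ∀ j χ₀ χ, ch j χ₀ χ ↔ ch j (mx π j χ₀ χ) (mx π j χ₀ χ) := by
    intro j χ₀ χ
    simp only [hch]
    rw [mixR_mx, baseR_mx]
  have hcardF : Fintype.card (Fin n → Fin κ) = κ ^ n := by simp
  have hpos : (0 : ℝ) < (κ : ℝ) ^ n := by positivity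
  set T : Fin P → Finset (Fin n → Fin κ) := fun j => univ.filter (fun χ => ch j χ χ) with hT
  set B : Finset (Fin P) := univ.filter (fun j => ∀ χ₀ : Fin n → Fin κ,
    δ * (κ : ℝ) ^ n < ({χ : Fin n → Fin κ | ch j χ₀ χ}.ncard : ℝ)) with hB
  have hBcard : ({j : Fin P | ∀ χ₀ : Fin n → Fin κ, δ * (κ : ℝ) ^ n < ({χ : Fin n → Fin κ |
      C.probes (bits (mixR H π j χ₀ χ)) ≠ C.probes (bits (baseR H π j χ₀))}.ncard : ℝ)}.ncard)
      = B.card := by
    rw [Set.ncard_eq_toFinset_card']
    congr 1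
    ext j
    simp only [Set.mem_toFinset, Set.mem_ofPred_eq, hB, Finset.mem_filter, Finset.mem_univ,
      true_and, hch]
  rw [hBcard]
  -- one bad block
  have hbad : ∀ j ∈ B, δ * (κ : ℝ) ^ n ≤ ((T j).card : ℝ) := by
    intro j hj
    have hj' := (Finset.mem_filter.mp hj).2
    have e1 : (κ : ℝ) ^ n * (δ * (κ : ℝ) ^ n) ≤
        ∑ χ₀ : Fin n → Fin κ, ((univ.filter (fun χ => ch j χ₀ χ)).card : ℝ) := by
      have : ∑ χ₀ : Fin n → Fin κ, (δ * (κ : ℝ) ^ n) ≤
          ∑ χ₀ : Fin n → Fin κ, ((univ.filter (fun χ => ch j χ₀ χ)).card : ℝ) := by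
        apply Finset.sum_le_sum
        intro χ₀ _
        have h := (hj' χ₀).le
        rw [Set.ncard_eq_toFinset_card'] at h
        refine h.trans (le_of_eq ?_)
        congr 2
        ext χ
        simp
      rw [Finset.sum_const, Finset.card_univ, hcardF, nsmul_eq_mul] at this
      push_cast at this
      exact this
    have e2 : ∑ χ₀ : Fin n → Fin κ, (univ.filter (fun χ => ch j χ₀ χ)).card ≤
        (T j).card * κ ^ n := by
      have e3 : ∑ χ₀ : Fin n → Fin κ, (univ.filter (fun χ => ch j χ₀ χ)).card =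
          (univ.filter (fun q : (Fin n → Fin κ) × (Fin n → Fin κ) => ch j q.1 q.2)).card := by
        rw [← Finset.card_sigma]
        apply Finset.card_bij (fun q _ => (q.1, q.2))
        · rintro ⟨a, b⟩ hq
          simp only [Finset.mem_sigma, Finset.mem_univ, Finset.mem_filter, true_and] at hq
          simp only [Finset.mem_filter, Finset.mem_univ, true_and]
          exact hq
        · rintro ⟨a, b⟩ _ ⟨a', b'⟩ _ h
          simp only [Prod.mk.injEq] at h
          obtain ⟨rfl, rfl⟩ := h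
          rfl
        · rintro ⟨a, b⟩ hq
          refine ⟨⟨a, b⟩, ?_, rfl⟩
          simp only [Finset.mem_filter, Finset.mem_univ, true_and] at hq
          simp only [Finset.mem_sigma, Finset.mem_univ, Finset.mem_filter, true_and]
          exact hq
      rw [e3, ← hcardF, ← Finset.card_univ, ← Finset.card_product]
      apply Finset.card_le_card_of_injOn (fun q => (mx π j q.1 q.2, mx π j q.2 q.1))
      · rintro ⟨a, b⟩ hq
        have hq' := (Finset.mem_filter.mp hq).2
        refine Finset.mem_coe.mpr (Finset.mem_product.mpr ⟨?_, Finset.mem_univ _⟩)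
        exact Finset.mem_filter.mpr ⟨Finset.mem_univ _, (hmx j a b).mp hq'⟩
      · rintro ⟨a, b⟩ _ ⟨a', b'⟩ _ h
        simp only [Prod.mk.injEq] at h
        obtain ⟨h1, h2⟩ := h
        have ha : a = a' := by
          rw [← mx_mx π j a b, h1, h2, mx_mx]
        have hb : b = b' := by
          rw [← mx_mx π j b a, h2, h1, mx_mx]
        rw [ha, hb]
    have e4 : (κ : ℝ) ^ n * (δ * (κ : ℝ) ^ n) ≤ ((T j).card : ℝ) * (κ : ℝ) ^ n := by
      refine e1.trans ?_
      exact_mod_cast e2
    rw [mul_comm] at e4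
    exact le_of_mul_le_mul_right e4 hpos
  -- all blocks together
  have hall : ∑ j : Fin P, (T j).card ≤ κ ^ n * (C.fanins.map (· + 1)).prod := by
    have e1 : ∑ j : Fin P, (T j).card =
        ∑ χ : Fin n → Fin κ, (univ.filter (fun j : Fin P => ch j χ χ)).card := by
      simp only [hT, Finset.card_filter]
      exact Finset.sum_comm
    rw [e1]
    calc ∑ χ : Fin n → Fin κ, (univ.filter (fun j : Fin P => ch j χ χ)).card
        ≤ ∑ _χ : Fin n → Fin κ, (C.fanins.map (· + 1)).prod :=
          Finset.sum_le_sum (fun χ _ => card_change H C π χ)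
      _ = κ ^ n * (C.fanins.map (· + 1)).prod := by
          rw [Finset.sum_const, Finset.card_univ, hcardF, smul_eq_mul]
  have h1 : (B.card : ℝ) * (δ * (κ : ℝ) ^ n) ≤
      (κ : ℝ) ^ n * ((C.fanins.map (· + 1)).prod : ℕ) := by
    calc (B.card : ℝ) * (δ * (κ : ℝ) ^ n) = ∑ _j ∈ B, (δ * (κ : ℝ) ^ n) := by
          rw [Finset.sum_const, nsmul_eq_mul]
      _ ≤ ∑ j ∈ B, ((T j).card : ℝ) := Finset.sum_le_sum hbad
      _ ≤ ∑ j : Fin P, ((T j).card : ℝ) :=
          Finset.sum_le_sum_of_subset_of_nonneg (Finset.subset_univ _)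
            (fun _ _ _ => Nat.cast_nonneg _)
      _ ≤ (κ : ℝ) ^ n * ((C.fanins.map (· + 1)).prod : ℕ) := by exact_mod_cast hall
  have h2 : ((B.card : ℝ) * δ) * (κ : ℝ) ^ n ≤
      (((C.fanins.map (· + 1)).prod : ℕ) : ℝ) * (κ : ℝ) ^ n := by
    linarith
  exact le_of_mul_le_mul_right h2 hpos

end Pool.Agent.W2helper17.CU
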